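import Mathlib
import Pool.Agent.P.MP_07d438_ag.Defs
import Pool.Agent.P.MP_07d438_ag.Upper
import Pool.Agent.P.MP_07d438_ag.Brodmann

namespace Pool.Agent.Results.MP_07d438_ag.MinVariables

universe u v

open Pool.Agent.P.MP_07d438_ag

/-- Let `f` be a realizable depth function (over some field `L`) with maximum `m`.  Over every
field `K`, the least number of variables of a polynomial ring containing a proper nonzero
homogeneous ideal with depth function `f` is `m + 1` if `f` is constant and `m + 2` otherwise. -/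
theorem result (f : ℕ → ℕ) (L : Type v) [Field L] (hreal : ∃ n, RealizedIn L n f) :
    ∃ m : ℕ, IsGreatest {v | ∃ t, 1 ≤ t ∧ f t = v} m ∧ ∀ (K : Type u) [Field K],
      ((∀ t, 1 ≤ t → f t = m) → IsLeast {n | RealizedIn K n f} (m + 1)) ∧
        ((∃ t, 1 ≤ t ∧ f t ≠ m) → IsLeast {n | RealizedIn K n f} (m + 2)) := by
  obtain ⟨n₀, hreal⟩ := hreal
  obtain ⟨t₀, ht₀, hconv⟩ := convergent_of_realized hreal
  have hbdd : BddAbove {v | ∃ t, 1 ≤ t ∧ f t = v} := by
    refine ⟨n₀, ?_⟩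
    rintro _ ⟨t, ht, rfl⟩
    exact Nat.le_of_succ_le (lt_of_realized hreal t ht)
  have hne : {v | ∃ t, 1 ≤ t ∧ f t = v}.Nonempty := ⟨f 1, 1, le_rfl, rfl⟩
  obtain ⟨m, hm⟩ : ∃ m, IsGreatest {v | ∃ t, 1 ≤ t ∧ f t = v} m :=
    ⟨_, Nat.sSup_mem hne hbdd, fun _ h => le_csSup hbdd h⟩
  refine ⟨m, hm, fun K _ => ?_⟩
  obtain ⟨⟨s, hs, hsm⟩, hle⟩ := hm
  have key : ∀ n, RealizedIn K n f →
      (m + 1 = n ∧ ∀ t, 1 ≤ t → f t = m) ∨ m + 2 ≤ n := by
    rintro n ⟨Q, hQ, hQt, hQ0, hd⟩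
    rcases dichotomy Q hQ0 (le_mx_of_homogeneous hQ hQt) with ⟨k, hk, h⟩ | ⟨k, hk, h⟩
    · have h1 : ∀ t, 1 ≤ t → f t = k := fun t ht => by
        exact_mod_cast (hd t ht).symm.trans (h t ht)
      have h2 := h1 s hs
      exact Or.inl ⟨by omega, fun t ht => by rw [h1 t ht]; omega⟩
    · have h1 : f s ≤ k := by exact_mod_cast (hd s hs).symm.le.trans (h s hs)
      exact Or.inr (by omega)
  refine ⟨fun hc => ⟨realized_add_one K f m hc, fun n hn => ?_⟩,
    fun ⟨t, ht, hne⟩ => ⟨realized_add_two K f m t₀ ht₀ hconv fun t ht => hle ⟨t, ht, rfl⟩,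
      fun n hn => ?_⟩⟩
  · rcases key n hn with h | h
    · exact h.1.le
    · omega
  · rcases key n hn with h | h
    · exact absurd (h.2 t ht) hne
    · exact h

end Pool.Agent.Results.MP_07d438_ag.MinVariables
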